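import Pool.Agent.H500.SV.Stm

set_option autoImplicit false
set_option linter.unusedSectionVars false

/-!
# The theorem of Mal'cev for finite solvable linear groups
-/

namespace Pool.Agent.H227.SV.Mal

open Pool.Agent.H500.SV

/-! ### Index bounds -/

lemma index_le {Γ X : Type*} [Group Γ] [Finite X] (C : Subgroup Γ) (f : Γ → X)
    (h : ∀ g g', f g = f g' → g⁻¹ * g' ∈ C) : C.index ≤ Nat.card X := by
  rw [Subgroup.index]
  apply Nat.card_le_card_of_injective (fun q : Γ ⧸ C => f q.out)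
  intro q q' hq
  rw [← QuotientGroup.out_eq' q, ← QuotientGroup.out_eq' q']
  exact QuotientGroup.eq.2 (h _ _ hq)

lemma relIndex_le {Γ X : Type*} [Group Γ] [Finite X] (A C : Subgroup Γ) (f : C → X)
    (h : ∀ g g' : C, f g = f g' → (g : Γ)⁻¹ * g' ∈ A) : A.relIndex C ≤ Nat.card X := by
  rw [Subgroup.relIndex]
  apply index_le _ f
  intro g g' hg
  rw [Subgroup.mem_subgroupOf]
  exact h g g' hg

/-! ### Eigenvectors -/

/-- simultaneous eigenvectors with different systems of eigenvalues are linearly independent -/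
lemma eigen_indep {k V ι κ : Type*} [Field k] [AddCommGroup V] [Module k V] (T : κ → V →ₗ[k] V)
    (v : ι → V) (e : ι → κ → k) (hv : ∀ r, v r ≠ 0) (hT : ∀ r c, T c (v r) = e r c • v r)
    (he : ∀ r s, r ≠ s → ∃ c, e r c ≠ e s c) : LinearIndependent k v := by
  classical
  rw [linearIndependent_iff']
  intro S
  induction S using Finset.induction_on with
  | empty => intro g _ i hi; simp at hi
  | insert s S hs ih =>
    intro g hg
    rw [Finset.sum_insert hs] at hg
    have h1 : ∀ r ∈ S, g r = 0 := by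
      intro r hr
      have hrs : r ≠ s := fun h => hs (h ▸ hr)
      obtain ⟨c, hc⟩ := he r s hrs
      have h2 : ∑ i ∈ S, (g i * (e i c - e s c)) • v i = 0 := by
        have h3 := congrArg (T c) hg
        rw [map_add, map_sum, map_zero, map_smul, hT] at h3
        have h4 : ∑ i ∈ S, T c (g i • v i) = ∑ i ∈ S, (g i * e i c) • v i := by
          refine Finset.sum_congr rfl fun i _ => ?_
          rw [map_smul, hT, smul_smul]
        rw [h4] at h3
        have h5 : ∑ i ∈ S, (g i * e s c) • v i = - (g s • e s c • v s) := by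
          have h6 : ∑ i ∈ S, (g i * e s c) • v i = e s c • ∑ i ∈ S, g i • v i := by
            rw [Finset.smul_sum]
            refine Finset.sum_congr rfl fun i _ => ?_
            rw [smul_smul, mul_comm]
          rw [h6, eq_neg_of_add_eq_zero_right hg, smul_neg, smul_comm]
        have h7 : ∑ i ∈ S, (g i * (e i c - e s c)) • v i =
            ∑ i ∈ S, (g i * e i c) • v i - ∑ i ∈ S, (g i * e s c) • v i := by
          rw [← Finset.sum_sub_distrib]
          refine Finset.sum_congr rfl fun i _ => ?_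
          rw [← sub_smul, mul_sub]
        rw [h7, h5, sub_neg_eq_add, add_comm]
        exact h3
      have h8 := ih (fun i => g i * (e i c - e s c)) h2 r hr
      rcases mul_eq_zero.1 h8 with h9 | h9
      · exact h9
      · exact absurd (sub_eq_zero.1 h9) hc
    have h2 : g s • v s = 0 := by
      have h3 : ∑ i ∈ S, g i • v i = 0 := Finset.sum_eq_zero fun i hi => by rw [h1 i hi, zero_smul]
      rwa [h3, add_zero] at hg
    intro i hi
    rcases Finset.mem_insert.1 hi with h | h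
    · rw [h]
      exact (smul_eq_zero.1 h2).resolve_right (hv s)
    · exact h1 i h

/-! ### Roots of unity -/

lemma finite_roots (k : Type*) [Field k] (s : ℕ) (hs : 0 < s) :
    Finite {x : k // x ^ s = 1} ∧ Nat.card {x : k // x ^ s = 1} ≤ s := by
  classical
  have h : {x : k | x ^ s = 1} = ↑((Polynomial.nthRoots s (1 : k)).toFinset) := by
    ext x
    rw [Finset.mem_coe, Multiset.mem_toFinset, Polynomial.mem_nthRoots hs]
    rfl
  have hf : {x : k | x ^ s = 1}.Finite := by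
    rw [h]
    exact Finset.finite_toSet _
  refine ⟨hf, ?_⟩
  have h2 : Nat.card {x : k // x ^ s = 1} = ({x : k | x ^ s = 1}).ncard := rfl
  rw [h2, h, Set.ncard_coe_finset]
  exact (Multiset.toFinset_card_le _).trans (Polynomial.card_nthRoots _ _)

/-! ### Diagonal matrices -/

lemma mul_isDiag {n : ℕ} {k : Type*} [Field k] {D : Matrix (Fin n) (Fin n) k} (hD : D.IsDiag)
    (X : Matrix (Fin n) (Fin n) k) (i j : Fin n) : (X * D) i j = X i j * D j j := by
  rw [← hD.diagonal_diag, Matrix.mul_diagonal]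
  simp

lemma isDiag_mul {n : ℕ} {k : Type*} [Field k] {D : Matrix (Fin n) (Fin n) k} (hD : D.IsDiag)
    (X : Matrix (Fin n) (Fin n) k) (i j : Fin n) : (D * X) i j = D i i * X i j := by
  rw [← hD.diagonal_diag, Matrix.diagonal_mul]
  simp

lemma isDiag_ext {n : ℕ} {k : Type*} [Field k] {D E : Matrix (Fin n) (Fin n) k} (hD : D.IsDiag)
    (hE : E.IsDiag) (h : ∀ i, D i i = E i i) : D = E := by
  ext i j
  by_cases hij : i = j
  · rw [hij]
    exact h j
  · rw [hD hij, hE hij]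

section main

variable {n : ℕ} {k : Type} [Field k] {Γ : Type} [Group Γ] (N : Γ →* Matrix (Fin n) (Fin n) k)
  (hN : Function.Injective N) (A : Subgroup Γ) (hAn : A.Normal) (hA : ∀ a ∈ A, (N a).IsDiag)

include hN hAn hA in
/-- the centralizer has index at most `n ^ n` -/
lemma centralizer_index : (Subgroup.centralizer (A : Set Γ)).index ≤ n ^ n := by
  classical
  have hrow : ∀ (g : Γ) (i : Fin n), ∃ j, N g i j ≠ 0 := by
    intro g i
    by_contra hcon
    push Not at hcon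
    have h1 : N g * N g⁻¹ = 1 := by rw [← map_mul, mul_inv_cancel, map_one]
    have h2 := congrFun (congrFun h1 i) i
    rw [Matrix.mul_apply, Matrix.one_apply_eq, Finset.sum_eq_zero] at h2
    · exact zero_ne_one h2
    · intro j _
      rw [hcon j, zero_mul]
  choose f hf using hrow
  have hcard : Nat.card (Fin n → Fin n) = n ^ n := by
    rw [Nat.card_fun]
    simp
  rw [← hcard]
  apply index_le _ f
  intro g g' hgg
  have key : ∀ (g : Γ) (a : Γ), a ∈ A → ∀ i, N (g * a * g⁻¹) i i = N a (f g i) (f g i) := by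
    intro g a ha i
    have h1 : N g * N a = N (g * a * g⁻¹) * N g := by
      rw [← map_mul, ← map_mul]
      congr 1
      group
    have h2 := congrFun (congrFun h1 i) (f g i)
    rw [mul_isDiag (hA a ha), isDiag_mul (hA _ (hAn.conj_mem a ha g)), mul_comm] at h2
    exact (mul_right_cancel₀ (hf g i) h2).symm
  rw [Subgroup.mem_centralizer_iff]
  intro a ha
  have h3 : N (g * a * g⁻¹) = N (g' * a * g'⁻¹) := by
    apply isDiag_ext (hA _ (hAn.conj_mem a ha g)) (hA _ (hAn.conj_mem a ha g'))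
    intro i
    rw [key g a ha, key g' a ha, hgg]
  have h4 := hN h3
  have h5 : a * (g⁻¹ * g') = g⁻¹ * (g * a * g⁻¹) * g' := by group
  rw [h5, h4]
  group

variable (B : Subgroup Γ) (hAB : A ≤ B) (hBC : B ≤ Subgroup.centralizer (A : Set Γ))
  (hBB : ∀ b ∈ B, ∀ c ∈ B, b * c * b⁻¹ * c⁻¹ ∈ A)
  (hZ : ∀ b ∈ B, (∀ c ∈ B, b * c = c * b) → b ∈ A)

include hN hA hBC hBB hZ in
/-- the index of `A` in `B` -/
lemma relIndex_B [Finite Γ] : A.relIndex B ≤ (n ^ 2) ^ n := by
  classical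
  -- the systems of eigenvalues
  let e : Fin n → B → (B → k) := fun i b c => N ((c : Γ) * b * (c : Γ)⁻¹ * (b : Γ)⁻¹) i i
  have hΦ : ∀ i, Nat.card (Set.range (e i)) ≤ n ^ 2 := by
    intro i
    have hfin : Finite (Set.range (e i)) := Set.finite_range _
    have hch : ∀ φ : Set.range (e i), ∃ b : B, e i b = φ.1 := fun φ => φ.2
    choose b hb using hch
    let P : Matrix (Fin n) (Fin n) k :=
      Matrix.diagonal fun j => if ∀ a ∈ A, N a j j = N a i i then 1 else 0
    have hPd : ∀ j, P j j = if ∀ a ∈ A, N a j j = N a i i then 1 else 0 := fun j =>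
      Matrix.diagonal_apply_eq _ j
    have hPC : ∀ c ∈ B, P * N c = N c * P := by
      intro c hc
      have hcC := hBC hc
      rw [Subgroup.mem_centralizer_iff] at hcC
      ext j l
      rw [Matrix.diagonal_mul, Matrix.mul_diagonal]
      by_cases h0 : N c j l = 0
      · rw [h0, mul_zero, zero_mul]
      · have h1 : ∀ a ∈ A, N a j j = N a l l := by
          intro a ha
          have h2 : N a * N c = N c * N a := by rw [← map_mul, ← map_mul, hcC a ha]
          have h3 := congrFun (congrFun h2 j) l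
          rw [isDiag_mul (hA a ha), mul_isDiag (hA a ha), mul_comm] at h3
          exact mul_left_cancel₀ h0 h3
        have h4 : (∀ a ∈ A, N a j j = N a i i) ↔ (∀ a ∈ A, N a l l = N a i i) := by
          constructor
          · intro h a ha
            rw [← h1 a ha, h a ha]
          · intro h a ha
            rw [h1 a ha, h a ha]
        by_cases h5 : ∀ a ∈ A, N a j j = N a i i
        · rw [if_pos h5, if_pos (h4.1 h5), one_mul, mul_one]
        · rw [if_neg h5, if_neg (fun h => h5 (h4.2 h)), zero_mul, mul_zero]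
    have hPA : ∀ a ∈ A, P * N a = N a i i • P := by
      intro a ha
      ext j l
      rw [Matrix.diagonal_mul, Matrix.smul_apply, smul_eq_mul]
      by_cases hjl : j = l
      · subst hjl
        by_cases h5 : ∀ a ∈ A, N a j j = N a i i
        · rw [hPd j, if_pos h5, one_mul, mul_one, h5 a ha]
        · rw [hPd j, if_neg h5, zero_mul, mul_zero]
      · have h6 : P j l = 0 := Matrix.diagonal_apply_ne _ hjl
        rw [h6, hA a ha hjl, mul_zero, mul_zero]
    have hP0 : P ≠ 0 := by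
      intro h
      have h1 := congrFun (congrFun h i) i
      rw [hPd, if_pos (fun _ _ => rfl)] at h1
      exact one_ne_zero h1
    let T : B → Matrix (Fin n) (Fin n) k →ₗ[k] Matrix (Fin n) (Fin n) k := fun c =>
      (LinearMap.mulLeft k (N c)).comp (LinearMap.mulRight k (N (c : Γ)⁻¹))
    have hli : LinearIndependent k fun φ : Set.range (e i) => P * N (b φ) := by
      refine eigen_indep T _ (fun φ => φ.1) ?_ ?_ ?_
      · intro φ h
        have h1 : P * N (b φ) * N (b φ : Γ)⁻¹ = P := by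
          rw [mul_assoc, ← map_mul, mul_inv_cancel, map_one, mul_one]
        rw [h, zero_mul] at h1
        exact hP0 h1.symm
      · intro φ c
        show N c * (P * N (b φ) * N (c : Γ)⁻¹) = φ.1 c • (P * N (b φ))
        have h1 : N ((c : Γ) * b φ * (c : Γ)⁻¹) =
            N ((c : Γ) * b φ * (c : Γ)⁻¹ * (b φ : Γ)⁻¹) * N (b φ) := by
          rw [← map_mul, inv_mul_cancel_right]
        calc N c * (P * N (b φ) * N (c : Γ)⁻¹)
            = (N c * P) * (N (b φ) * N (c : Γ)⁻¹) := by simp only [mul_assoc]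
          _ = P * (N c * N (b φ) * N (c : Γ)⁻¹) := by
              rw [← hPC c c.2]
              simp only [mul_assoc]
          _ = P * N ((c : Γ) * b φ * (c : Γ)⁻¹) := by rw [map_mul, map_mul]
          _ = (P * N ((c : Γ) * b φ * (c : Γ)⁻¹ * (b φ : Γ)⁻¹)) * N (b φ) := by rw [h1, ← mul_assoc]
          _ = φ.1 c • (P * N (b φ)) := by
              rw [hPA _ (hBB _ c.2 _ (b φ).2), Matrix.smul_mul]
              congr 1
              exact congrFun (hb φ) c
      · intro φ φ' hne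
        by_contra hcon
        push Not at hcon
        exact hne (Subtype.ext (funext hcon))
    have hft : Fintype (Set.range (e i)) := Fintype.ofFinite _
    have h1 := hli.fintype_card_le_finrank
    rw [Module.finrank_matrix, Module.finrank_self, mul_one, Fintype.card_fin, ← sq] at h1
    rw [Nat.card_eq_fintype_card]
    exact h1
  have hfin : ∀ i, Finite (Set.range (e i)) := fun i => Set.finite_range _
  have hcard : Nat.card (∀ i, Set.range (e i)) ≤ (n ^ 2) ^ n := by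
    rw [Nat.card_pi]
    calc ∏ i, Nat.card (Set.range (e i)) ≤ ∏ _i : Fin n, n ^ 2 :=
          Finset.prod_le_prod' fun i _ => hΦ i
      _ = (n ^ 2) ^ n := by rw [Finset.prod_const, Finset.card_univ, Fintype.card_fin]
  refine le_trans ?_ hcard
  apply relIndex_le A B fun b => fun i => (⟨e i b, b, rfl⟩ : Set.range (e i))
  intro b b' hbb
  have h1 : ∀ (c : B) (i : Fin n), N ((c : Γ) * b * (c : Γ)⁻¹ * (b : Γ)⁻¹) i i =
      N ((c : Γ) * b' * (c : Γ)⁻¹ * (b' : Γ)⁻¹) i i := by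
    intro c i
    have h2 := congrArg Subtype.val (congrFun hbb i)
    exact congrFun h2 c
  apply hZ
  · exact B.mul_mem (B.inv_mem b.2) b'.2
  · intro c hc
    have h2 : N (c * b * c⁻¹ * (b : Γ)⁻¹) = N (c * b' * c⁻¹ * (b' : Γ)⁻¹) :=
      isDiag_ext (hA _ (hBB _ hc _ b.2)) (hA _ (hBB _ hc _ b'.2)) fun i => h1 ⟨c, hc⟩ i
    have h3 := hN h2
    have h4 : (b : Γ) * c⁻¹ * (b : Γ)⁻¹ = b' * c⁻¹ * (b' : Γ)⁻¹ := by
      apply mul_left_cancel (a := c)
      simpa only [mul_assoc] using h3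
    have h5 : (b : Γ) * c * (b : Γ)⁻¹ = b' * c * (b' : Γ)⁻¹ := by
      have := congrArg (fun z => z⁻¹) h4
      simpa only [mul_inv_rev, inv_inv, mul_assoc] using this
    calc (b : Γ)⁻¹ * b' * c = (b : Γ)⁻¹ * (b' * c * (b' : Γ)⁻¹) * b' := by group
      _ = (b : Γ)⁻¹ * (b * c * (b : Γ)⁻¹) * b' := by rw [h5]
      _ = c * ((b : Γ)⁻¹ * b') := by group

include hA in
lemma pow_entry {a : Γ} (ha : a ∈ A) (i : Fin n) (m : ℕ) : N a i i ^ m = N (a ^ m) i i := by
  induction m with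
  | zero => rw [pow_zero, pow_zero, map_one, Matrix.one_apply_eq]
  | succ m ih => rw [pow_succ, pow_succ, map_mul, mul_isDiag (hA a ha), ih]

include hN hA hAB hBC in
/-- the index of `A` in its centralizer -/
lemma relIndex_C [Finite Γ] (hAn : A.Normal) (hBn : B.Normal)
    (hY : ∀ c, (∀ b ∈ B, b * c = c * b) → c ∈ A) :
    A.relIndex (Subgroup.centralizer (A : Set Γ)) ≤
      (A.relIndex B * A.relIndex B ^ n) ^ A.relIndex B := by
  classical
  have hn : (A.subgroupOf B).Normal := hAn.subgroupOf B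
  set s := A.relIndex B with hs
  have hQ : Nat.card (B ⧸ A.subgroupOf B) = s := rfl
  have hs0 : 0 < s := by
    rw [← hQ]
    exact Nat.card_pos
  obtain ⟨hRf, hRc⟩ := finite_roots k s hs0
  have hpow : ∀ b : B, (b : Γ) ^ s ∈ A := by
    intro b
    have h1 : (QuotientGroup.mk b : B ⧸ A.subgroupOf B) ^ s = 1 := by
      rw [← hQ]
      exact pow_card_eq_one'
    rw [← QuotientGroup.mk_pow, QuotientGroup.eq_one_iff, Subgroup.mem_subgroupOf] at h1
    exact h1
  have hcomm : ∀ b : B, ∀ a ∈ A, a * (b : Γ) = b * a := by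
    intro b a ha
    exact Subgroup.mem_centralizer_iff.1 (hBC b.2) a ha
  -- base points
  have hbase : ∀ q q' : B ⧸ A.subgroupOf B, ∃ x0 : B,
      (∃ x : B, (x : Γ) ^ s = (q.out : Γ) ^ s ∧ (QuotientGroup.mk x : B ⧸ A.subgroupOf B) = q') →
      ((x0 : Γ) ^ s = (q.out : Γ) ^ s ∧ (QuotientGroup.mk x0 : B ⧸ A.subgroupOf B) = q') := by
    intro q q'
    by_cases h : ∃ x : B, (x : Γ) ^ s = (q.out : Γ) ^ s ∧
        (QuotientGroup.mk x : B ⧸ A.subgroupOf B) = q'
    · obtain ⟨x, hx⟩ := h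
      exact ⟨x, fun _ => hx⟩
    · exact ⟨1, fun h' => absurd h' h⟩
  choose x0 hx0 using hbase
  have hprop : ∀ (q : B ⧸ A.subgroupOf B) (x : B), (x : Γ) ^ s = (q.out : Γ) ^ s →
      ((x0 q (QuotientGroup.mk x) : Γ)⁻¹ * x ∈ A ∧
        ((x0 q (QuotientGroup.mk x) : Γ)⁻¹ * x) ^ s = 1) := by
    intro q x hx
    obtain ⟨h1, h2⟩ := hx0 q (QuotientGroup.mk x) ⟨x, hx, rfl⟩
    have h3 : (x0 q (QuotientGroup.mk x) : Γ)⁻¹ * x ∈ A := by
      rw [QuotientGroup.eq, Subgroup.mem_subgroupOf] at h2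
      exact h2
    refine ⟨h3, ?_⟩
    have h4 : Commute ((x0 q (QuotientGroup.mk x) : Γ)) ((x0 q (QuotientGroup.mk x) : Γ)⁻¹ * x) :=
      (hcomm _ _ h3).symm
    have h5 := h4.mul_pow s
    rw [mul_inv_cancel_left, hx, h1] at h5
    exact (mul_left_cancel (a := (q.out : Γ) ^ s) (by rw [mul_one]; exact h5)).symm
  let F : (B ⧸ A.subgroupOf B) → B → (B ⧸ A.subgroupOf B) × (Fin n → {x : k // x ^ s = 1}) :=
    fun q x => (QuotientGroup.mk x, fun i =>
      if h : N ((x0 q (QuotientGroup.mk x) : Γ)⁻¹ * x) i i ^ s = 1 then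
        ⟨N ((x0 q (QuotientGroup.mk x) : Γ)⁻¹ * x) i i, h⟩ else ⟨1, one_pow s⟩)
  have hFinj : ∀ (q : B ⧸ A.subgroupOf B) (x y : B), (x : Γ) ^ s = (q.out : Γ) ^ s →
      (y : Γ) ^ s = (q.out : Γ) ^ s → F q x = F q y → x = y := by
    intro q x y hx hy hF
    obtain ⟨h1, h2⟩ := hprop q x hx
    obtain ⟨h3, h4⟩ := hprop q y hy
    have h5 : (QuotientGroup.mk x : B ⧸ A.subgroupOf B) = QuotientGroup.mk y :=
      congrArg Prod.fst hF
    have h6 : ∀ i, N ((x0 q (QuotientGroup.mk x) : Γ)⁻¹ * x) i i =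
        N ((x0 q (QuotientGroup.mk y) : Γ)⁻¹ * y) i i := by
      intro i
      have h7 := congrFun (congrArg Prod.snd hF) i
      have h8 : N ((x0 q (QuotientGroup.mk x) : Γ)⁻¹ * x) i i ^ s = 1 := by
        rw [pow_entry N A hA h1, h2, map_one, Matrix.one_apply_eq]
      have h9 : N ((x0 q (QuotientGroup.mk y) : Γ)⁻¹ * y) i i ^ s = 1 := by
        rw [pow_entry N A hA h3, h4, map_one, Matrix.one_apply_eq]
      simp only [F] at h7
      rw [dif_pos h8, dif_pos h9] at h7
      exact congrArg Subtype.val h7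
    have h7 := hN (isDiag_ext (hA _ h1) (hA _ h3) h6)
    rw [h5] at h7
    exact Subtype.ext (mul_left_cancel h7)
  -- conjugation of the representatives
  let g : Subgroup.centralizer (A : Set Γ) → (B ⧸ A.subgroupOf B) → B :=
    fun c q => ⟨c * q.out * (c : Γ)⁻¹, hBn.conj_mem _ q.out.2 _⟩
  have hg : ∀ c q, (g c q : Γ) ^ s = (q.out : Γ) ^ s := by
    intro c q
    show ((c : Γ) * q.out * (c : Γ)⁻¹) ^ s = _
    rw [conj_pow, ← Subgroup.mem_centralizer_iff.1 c.2 _ (hpow q.out), mul_inv_cancel_right]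
  have hcard : Nat.card ((B ⧸ A.subgroupOf B) →
      (B ⧸ A.subgroupOf B) × (Fin n → {x : k // x ^ s = 1})) ≤ (s * s ^ n) ^ s := by
    rw [Nat.card_fun, Nat.card_prod, Nat.card_fun, hQ, Nat.card_fin]
    exact Nat.pow_le_pow_left (Nat.mul_le_mul_left _ (Nat.pow_le_pow_left hRc n)) s
  refine le_trans ?_ hcard
  apply relIndex_le A _ fun c q => F q (g c q)
  intro c c' hcc
  have h1 : ∀ q, g c q = g c' q := fun q => hFinj q _ _ (hg c q) (hg c' q) (congrFun hcc q)
  apply hY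
  intro b hb
  have h2 : ∀ q : B ⧸ A.subgroupOf B, (q.out : Γ) * ((c : Γ)⁻¹ * c') = (c : Γ)⁻¹ * c' * q.out := by
    intro q
    have h3 : (c : Γ) * q.out * (c : Γ)⁻¹ = c' * q.out * (c' : Γ)⁻¹ := congrArg Subtype.val (h1 q)
    calc (q.out : Γ) * ((c : Γ)⁻¹ * c') = (c : Γ)⁻¹ * (c * q.out * (c : Γ)⁻¹) * c' := by group
      _ = (c : Γ)⁻¹ * (c' * q.out * (c' : Γ)⁻¹) * c' := by rw [h3]
      _ = (c : Γ)⁻¹ * c' * q.out := by group
  -- `b` is a representative times an element of `A`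
  have h3 : ((QuotientGroup.mk (⟨b, hb⟩ : B) : B ⧸ A.subgroupOf B).out : Γ)⁻¹ * b ∈ A := by
    have h4 := QuotientGroup.out_eq' (QuotientGroup.mk (⟨b, hb⟩ : B) : B ⧸ A.subgroupOf B)
    have h5 := (QuotientGroup.eq).1 h4
    rw [Subgroup.mem_subgroupOf] at h5
    exact h5
  set r := (QuotientGroup.mk (⟨b, hb⟩ : B) : B ⧸ A.subgroupOf B).out with hr
  have h4 : b = (r : Γ) * ((r : Γ)⁻¹ * b) := by rw [mul_inv_cancel_left]
  have h5 : (r : Γ)⁻¹ * b * ((c : Γ)⁻¹ * c') = (c : Γ)⁻¹ * c' * ((r : Γ)⁻¹ * b) :=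
    Subgroup.mem_centralizer_iff.1 ((Subgroup.centralizer (A : Set Γ)).mul_mem
      ((Subgroup.centralizer (A : Set Γ)).inv_mem c.2) c'.2) _ h3
  have h6 : (r : Γ) * ((c : Γ)⁻¹ * c') = (c : Γ)⁻¹ * c' * r := h2 _
  calc b * ((c : Γ)⁻¹ * c') = (r : Γ) * ((r : Γ)⁻¹ * b * ((c : Γ)⁻¹ * c')) := by group
    _ = (r : Γ) * ((c : Γ)⁻¹ * c' * ((r : Γ)⁻¹ * b)) := by rw [h5]
    _ = (r : Γ) * ((c : Γ)⁻¹ * c') * ((r : Γ)⁻¹ * b) := by group
    _ = (c : Γ)⁻¹ * c' * r * ((r : Γ)⁻¹ * b) := by rw [h6]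
    _ = (c : Γ)⁻¹ * c' * b := by group

end main

/-- the bound -/
def bd (n : ℕ) : ℕ := (((n ^ 2) ^ n) * ((n ^ 2) ^ n) ^ n) ^ ((n ^ 2) ^ n) * n ^ n

/-- finite groups -/
lemma core {n : ℕ} {k : Type} [Field k] {Γ : Type} [Group Γ] [Finite Γ] [Group.IsSolvable Γ]
    (N0 : Γ →* Matrix.GeneralLinearGroup (Fin n) k) (h0 : Function.Injective N0)
    (hS : ∀ A : Subgroup Γ, A.Normal → (∀ a ∈ A, ∀ b ∈ A, a * b = b * a) →
      ∃ Q : Matrix.GeneralLinearGroup (Fin n) k, ∀ a ∈ A,
        ((Q * N0 a * Q⁻¹ : Matrix.GeneralLinearGroup (Fin n) k) :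
          Matrix (Fin n) (Fin n) k).IsDiag) :
    ∃ A : Subgroup Γ, A.Normal ∧ (∀ a ∈ A, ∀ b ∈ A, a * b = b * a) ∧ A.index ≤ bd n := by
  classical
  obtain ⟨A, hAmax⟩ := Set.Finite.exists_maximal
    (Set.toFinite {A : Subgroup Γ | A.Normal ∧ ∀ a ∈ A, ∀ b ∈ A, a * b = b * a})
    ⟨⊥, inferInstance, by
      intro a ha b hb
      rw [Subgroup.mem_bot] at ha hb
      rw [ha, hb]⟩
  obtain ⟨⟨hAn, hAab⟩, hAm⟩ := hAmax
  obtain ⟨Q, hQ⟩ := hS A hAn hAab
  let N : Γ →* Matrix (Fin n) (Fin n) k :=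
    (Units.coeHom (Matrix (Fin n) (Fin n) k)).comp ((MulAut.conj Q).toMonoidHom.comp N0)
  have hN : Function.Injective N := by
    intro x y hxy
    have h1 : (Q * N0 x * Q⁻¹ : Matrix.GeneralLinearGroup (Fin n) k) = Q * N0 y * Q⁻¹ :=
      Units.ext hxy
    exact h0 (mul_left_cancel (mul_right_cancel h1))
  have hA : ∀ a ∈ A, (N a).IsDiag := hQ
  have hAC : A ≤ Subgroup.centralizer (A : Set Γ) := by
    intro a ha
    rw [Subgroup.mem_centralizer_iff]
    exact fun b hb => hAab b hb a ha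
  obtain ⟨B, hBmax⟩ := Set.Finite.exists_maximal
    (Set.toFinite {B : Subgroup Γ | B.Normal ∧ A ≤ B ∧ B ≤ Subgroup.centralizer (A : Set Γ) ∧
      ∀ b ∈ B, ∀ c ∈ B, b * c * b⁻¹ * c⁻¹ ∈ A})
    ⟨A, hAn, le_rfl, hAC, fun b hb c hc =>
      A.mul_mem (A.mul_mem (A.mul_mem hb hc) (A.inv_mem hb)) (A.inv_mem hc)⟩
  obtain ⟨⟨hBn, hAB, hBC, hBB⟩, hBm⟩ := hBmax
  have hZ : ∀ b ∈ B, (∀ c ∈ B, b * c = c * b) → b ∈ A := by
    intro b hb hbc
    have h1 : B ⊓ Subgroup.centralizer (B : Set Γ) ≤ A := by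
      apply hAm
      · refine ⟨inferInstance, ?_⟩
        intro x hx y hy
        exact (Subgroup.mem_centralizer_iff.1 hx.2 y hy.1).symm
      · intro a ha
        refine Subgroup.mem_inf.2 ⟨hAB ha, ?_⟩
        rw [Subgroup.mem_centralizer_iff]
        intro c hc
        exact (Subgroup.mem_centralizer_iff.1 (hBC hc) a ha).symm
    apply h1
    refine Subgroup.mem_inf.2 ⟨hb, ?_⟩
    rw [Subgroup.mem_centralizer_iff]
    exact fun c hc => (hbc c hc).symm
  have hY0 : Subgroup.centralizer (B : Set Γ) ≤ A := by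
    by_contra hcon
    obtain ⟨D, hDmin⟩ := Set.Finite.exists_minimal
      (Set.toFinite {D : Subgroup Γ | D.Normal ∧ D ≤ Subgroup.centralizer (B : Set Γ) ∧ ¬ D ≤ A})
      ⟨Subgroup.centralizer (B : Set Γ), inferInstance, le_rfl, hcon⟩
    obtain ⟨⟨hDn, hDY, hDA⟩, hDm⟩ := hDmin
    have hD0 : D ≠ ⊥ := by
      rintro rfl
      exact hDA bot_le
    have hlt : ⁅D, D⁆ < D := Group.IsSolvable.commutator_lt_of_ne_bot hD0
    have hDD : ⁅D, D⁆ ≤ A := by
      by_contra h
      have h1 : D ≤ ⁅D, D⁆ := hDm ⟨inferInstance, hlt.le.trans hDY, h⟩ hlt.le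
      exact absurd (lt_of_le_of_lt h1 hlt) (lt_irrefl _)
    have hDB : ∀ d ∈ D, ∀ b ∈ B, b * d = d * b := fun d hd b hb =>
      Subgroup.mem_centralizer_iff.1 (hDY hd) b hb
    have hle : B ⊔ D ≤ B := by
      apply hBm _ le_sup_left
      refine ⟨inferInstance, hAB.trans le_sup_left, ?_, ?_⟩
      · apply sup_le hBC
        exact hDY.trans (Subgroup.centralizer_le hAB)
      · intro x hx y hy
        rw [Subgroup.mem_sup_of_normal_right] at hx hy
        obtain ⟨b, hb, d, hd, rfl⟩ := hx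
        obtain ⟨b', hb', d', hd', rfl⟩ := hy
        have hcd : d * d' * d⁻¹ * d'⁻¹ ∈ D :=
          D.mul_mem (D.mul_mem (D.mul_mem hd hd') (D.inv_mem hd)) (D.inv_mem hd')
        have hcA : d * d' * d⁻¹ * d'⁻¹ ∈ A := by
          apply hDD
          have := Subgroup.commutator_mem_commutator hd hd'
          rwa [commutatorElement_def] at this
        have e1 := hDB d hd b' hb'
        have e2 := hDB _ hcd b'⁻¹ (B.inv_mem hb')
        have e3 := hDB (d * d' * d⁻¹) (D.mul_mem (D.mul_mem hd hd') (D.inv_mem hd)) b⁻¹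
          (B.inv_mem hb)
        have h1 : b * d * (b' * d') * (b * d)⁻¹ * (b' * d')⁻¹ =
            b * b' * b⁻¹ * b'⁻¹ * (d * d' * d⁻¹ * d'⁻¹) := by
          calc b * d * (b' * d') * (b * d)⁻¹ * (b' * d')⁻¹
              = b * (d * b') * (d' * d⁻¹ * b⁻¹ * d'⁻¹ * b'⁻¹) := by group
            _ = b * (b' * d) * (d' * d⁻¹ * b⁻¹ * d'⁻¹ * b'⁻¹) := by rw [e1]
            _ = b * b' * ((d * d' * d⁻¹) * b⁻¹) * (d'⁻¹ * b'⁻¹) := by group
            _ = b * b' * (b⁻¹ * (d * d' * d⁻¹)) * (d'⁻¹ * b'⁻¹) := by rw [e3]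
            _ = b * b' * b⁻¹ * ((d * d' * d⁻¹ * d'⁻¹) * b'⁻¹) := by group
            _ = b * b' * b⁻¹ * (b'⁻¹ * (d * d' * d⁻¹ * d'⁻¹)) := by rw [e2]
            _ = b * b' * b⁻¹ * b'⁻¹ * (d * d' * d⁻¹ * d'⁻¹) := by group
        rw [h1]
        exact A.mul_mem (hBB b hb b' hb') hcA
    apply hDA
    intro d hd
    exact hZ d (hle (le_sup_right (a := B) hd)) fun c hc => (hDB d hd c hc).symm
  have hY : ∀ c, (∀ b ∈ B, b * c = c * b) → c ∈ A := by
    intro c hc
    apply hY0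
    rw [Subgroup.mem_centralizer_iff]
    exact hc
  refine ⟨A, hAn, hAab, ?_⟩
  have h1 := centralizer_index N hN A hAn hA
  have h2 := relIndex_B N hN A hA B hBC hBB hZ
  have h3 := relIndex_C N hN A hA B hAB hBC hAn hBn hY
  rw [← Subgroup.relIndex_mul_index hAC]
  unfold bd
  have hpos : 0 < A.relIndex B := Nat.card_pos
  refine Nat.mul_le_mul (h3.trans ?_) h1
  have hS1 : 0 < (n ^ 2) ^ n := lt_of_lt_of_le hpos h2
  calc (A.relIndex B * A.relIndex B ^ n) ^ A.relIndex B
      ≤ ((n ^ 2) ^ n * ((n ^ 2) ^ n) ^ n) ^ A.relIndex B :=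
        Nat.pow_le_pow_left (Nat.mul_le_mul h2 (Nat.pow_le_pow_left h2 n)) _
    _ ≤ ((n ^ 2) ^ n * ((n ^ 2) ^ n) ^ n) ^ ((n ^ 2) ^ n) :=
        Nat.pow_le_pow_right (Nat.mul_pos hS1 (Nat.pow_pos hS1)) h2

/-- **Part 2.** -/
theorem main : S_Mal := by
  intro n
  refine ⟨bd n, ?_⟩
  intro k _ _ G _ ρ hfin hsol hSA
  have hsol' : Group.IsSolvable ρ.range := hsol
  obtain ⟨A, hAn, hAab, hAi⟩ := core (Γ := ρ.range) ρ.range.subtype
    (Subgroup.subtype_injective _) (by
      intro A hAn hAab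
      obtain ⟨Q, hQ⟩ := hSA (A.comap ρ.rangeRestrict) (hAn.comap _) (by
        intro a ha b hb
        have := hAab _ ha _ hb
        exact congrArg Subtype.val this)
      refine ⟨Q, ?_⟩
      rintro ⟨_, g, rfl⟩ ha
      exact hQ g ha)
  refine ⟨A.comap ρ.rangeRestrict, hAn.comap _, ?_, ?_, ?_, ?_⟩
  · intro g hg
    rw [Subgroup.mem_comap]
    have : ρ.rangeRestrict g = 1 := Subtype.ext hg
    rw [this]
    exact A.one_mem
  · rw [Subgroup.index_comap_of_surjective _ ρ.rangeRestrict_surjective]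
    exact hAi
  · rw [Subgroup.index_comap_of_surjective _ ρ.rangeRestrict_surjective]
    exact Subgroup.index_ne_zero_of_finite
  · intro a ha b hb
    exact congrArg Subtype.val (hAab _ ha _ hb)

end Pool.Agent.H227.SV.Mal
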